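import Pool.Agent.H7.KR.Stmts

/-!
# Board `kr`, row BTW (MP_fd41b2_co): strangers, no small part.
-/

set_option autoImplicit false

open Finset

namespace Pool.KR

open Pool.Agent.H23.KT Pool.Agent.H46.KW Pool.KQ

namespace BTWAux

variable {V : Type} [DecidableEq V]

/-- The number of vertices. -/
lemma cardW {G : SimpleGraph V} {p a : ℕ} {e C : ℝ} {W : Finset V}
    {P : Fin (p + 3) → Finset V} {U : Finset V} (hS : Str G p a e C W P U) :
    W.card = U.card + ∑ i, (P i).card := by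
  have h1 : W = U ∪ univ.biUnion P := by
    ext u
    rw [hS.cov u, mem_union, mem_biUnion]
    simp
  rw [h1, card_union_of_disjoint, card_biUnion]
  · intro i _ j _ hij
    exact hS.par.dis i j hij
  · rw [disjoint_biUnion_right]
    intro i _
    exact (hS.disU i).symm

/-- The parts of the smallest size. -/
lemma cardZ {G : SimpleGraph V} {p a : ℕ} {e C : ℝ} {W : Finset V}
    {P : Fin (p + 3) → Finset V} {U : Finset V} (hS : Str G p a e C W P U)
    (hW : W.card ≤ (p + 3) * a + (p + 2)) (hP : ∀ i, a ≤ (P i).card) :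
    U.card + 1 ≤ (univ.filter (fun i => (P i).card = a)).card := by
  have h1 := cardW hS
  have h2 : ∑ i : Fin (p + 3), (a + if (P i).card = a then 0 else 1) ≤ ∑ i, (P i).card := by
    refine sum_le_sum ?_
    intro i _
    have := hP i
    split_ifs with h
    · omega
    · omega
  rw [sum_add_distrib] at h2
  have h3 : ∑ i : Fin (p + 3), (if (P i).card = a then 0 else 1) +
      (univ.filter (fun i => (P i).card = a)).card = p + 3 := by
    rw [card_filter, ← sum_add_distrib]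
    have : ∀ i : Fin (p + 3), ((if (P i).card = a then 0 else 1) +
        (if (P i).card = a then 1 else 0)) = 1 := by
      intro i
      split_ifs <;> rfl
    rw [sum_congr rfl (fun i _ => this i)]
    simp
  simp only [sum_const, card_univ, Fintype.card_fin, smul_eq_mul] at h2
  omega

open Classical in
/-- The vertices of `X` adjacent to a vertex of `U`. -/
noncomputable def TT (G : SimpleGraph V) (X U : Finset V) : Finset V :=
  X.filter (fun u => ∃ z ∈ U, G.Adj u z)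

omit [DecidableEq V] in
lemma mem_TT {G : SimpleGraph V} {X U : Finset V} {u : V} :
    u ∈ TT G X U ↔ u ∈ X ∧ ∃ z ∈ U, G.Adj u z := by
  classical
  unfold TT
  rw [mem_filter]

/-- One part. -/
lemma part [Fintype V] {G : SimpleGraph V} {p a : ℕ} {v : V} {e C : ℝ}
    {P : Fin (p + 3) → Finset V} {U : Finset V} (hS : Str G p a e C (nb G univ v) P U)
    (hCOV : COVStmt) (hMEE : MEEStmt) (M : ℝ) {i : Fin (p + 3)} (hi : (P i).card = a)
    (h1 : ∀ u ∈ P i, (∀ z ∈ U, ¬ G.Adj u z) → ES G p a v u (co G v u) ≤ M)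
    (h2 : ∀ u ∈ P i, (∃ z ∈ U, G.Adj u z) →
      ES G p a v u (co G v u \ U) ≤ M - 3 / 8 * (a : ℝ) ^ (p + 2)) :
    LS G p a v ≤ a * M - 3 / 8 * (a : ℝ) ^ (p + 2) * ((TT G (P i) U).card : ℝ) +
      ((a : ℝ) + p + 2) * (((clq G (nb G univ v) (p + 3)).filter
        (fun L => ¬ Disjoint L U)).card : ℝ) := by
  classical
  have hI : P i ⊆ nb G univ v := fun u hu => (hS.cov u).2 (Or.inr ⟨i, hu⟩)
  have h3 := hCOV G p a v (P i) U hI
  have h4 : ∑ u ∈ P i, ES G p a v u (co G v u \ U) ≤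
      a * M - 3 / 8 * (a : ℝ) ^ (p + 2) * ((TT G (P i) U).card : ℝ) := by
    have h5 : ∀ u ∈ P i, ES G p a v u (co G v u \ U) ≤
        M - (if ∃ z ∈ U, G.Adj u z then 3 / 8 * (a : ℝ) ^ (p + 2) else 0) := by
      intro u hu
      split_ifs with h
      · exact h2 u hu h
      · push Not at h
        rw [sub_zero]
        have h6 : co G v u \ U = co G v u := by
          rw [Finset.sdiff_eq_self_iff_disjoint]
          rw [disjoint_left]
          intro z hz hzU
          exact h z hzU ((mem_nb G).1 hz).2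
        rw [h6]
        exact h1 u hu h
    refine (sum_le_sum h5).trans (le_of_eq ?_)
    rw [sum_sub_distrib, sum_const, hi, nsmul_eq_mul, ← sum_filter, sum_const, nsmul_eq_mul]
    unfold TT
    ring
  have h7 : (((clq G (nb G univ v) (p + 3)).filter
        (fun L => ¬ (Disjoint L U ∧ ¬ Disjoint L (P i)))).card : ℝ) ≤
      (((clq G (nb G univ v) (p + 3)).filter (fun L => ¬ Disjoint L U)).card : ℝ) := by
    norm_cast
    refine card_le_card ?_
    intro L hL
    rw [mem_filter] at hL ⊢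
    refine ⟨hL.1, fun hd => hL.2 ⟨hd, ?_⟩⟩
    obtain ⟨u, hu1, hu2⟩ := (hMEE G p a e C _ P U hS L hL.1).1 hd i
    rw [not_disjoint_iff]
    exact ⟨u, hu1, hu2⟩
  have h8 : (0 : ℝ) ≤ (a : ℝ) + p + 2 := by positivity
  have h9 := mul_le_mul_of_nonneg_left h7 h8
  linarith

/-- The cliques with an exceptional vertex. -/
lemma kap {G : SimpleGraph V} {p a : ℕ} {e C d : ℝ} {W : Finset V}
    {P : Fin (p + 3) → Finset V} {U : Finset V} (hS : Str G p a e C W P U)
    (hMEE : MEEStmt) (hKAP : KAPStmt) (hd : ∀ z ∈ U, ((nb G W z).card : ℝ) ≤ d)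
    (Z : Finset (Fin (p + 3))) (hZ : U.card < Z.card) :
    (((clq G W (p + 3)).filter (fun L => ¬ Disjoint L U)).card : ℝ) ≤
      (∑ i ∈ Z, ((TT G (P i) U).card : ℝ)) * (U.card * d ^ (p + 1)) := by
  classical
  have hUW : U ⊆ W := fun z hz => (hS.cov z).2 (Or.inl hz)
  have h1 : (clq G W (p + 3)).filter (fun L => ¬ Disjoint L U) ⊆
      Z.biUnion (fun i => (TT G (P i) U).biUnion (fun u =>
        (clq G W (p + 3)).filter (fun L => u ∈ L ∧ ¬ Disjoint L U))) := by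
    intro L hL
    rw [mem_filter] at hL
    obtain ⟨i, hi, u, hu, huP⟩ := (hMEE G p a e C W P U hS L hL.1).2 Z hZ
    obtain ⟨z, hzL, hzU⟩ := not_disjoint_iff.1 hL.2
    rw [mem_biUnion]
    refine ⟨i, hi, ?_⟩
    rw [mem_biUnion]
    refine ⟨u, mem_TT.2 ⟨huP, z, hzU, ?_⟩, mem_filter.2 ⟨hL.1, hu, hL.2⟩⟩
    refine ((mem_clq G).1 hL.1).2.2 hu hzL ?_
    rintro rfl
    exact disjoint_left.1 (hS.disU i) huP hzU
  have h2 := (card_le_card h1).trans (card_biUnion_le)
  have h3 : (((clq G W (p + 3)).filter (fun L => ¬ Disjoint L U)).card : ℝ) ≤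
      ∑ i ∈ Z, ∑ u ∈ TT G (P i) U,
        (((clq G W (p + 3)).filter (fun L => u ∈ L ∧ ¬ Disjoint L U)).card : ℝ) := by
    have h4 := (Nat.cast_le (α := ℝ)).2 h2
    rw [Nat.cast_sum] at h4
    refine h4.trans (sum_le_sum ?_)
    intro i _
    exact_mod_cast card_biUnion_le
  refine h3.trans ?_
  rw [sum_mul]
  refine sum_le_sum ?_
  intro i _
  rw [← nsmul_eq_mul, ← sum_const]
  refine sum_le_sum ?_
  intro u hu
  exact (hKAP G p d W U hUW hd).2 u (fun hU =>
    disjoint_left.1 (hS.disU i) (mem_TT.1 hu).1 hU)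

end BTWAux

/-- Exceptional vertices which are strangers, and no small part. -/
theorem btw (hEDG : EDGStmt) (hEDS : EDSStmt) (hCOV : COVStmt) (hCDG : CDGStmt) (hMEE : MEEStmt)
    (hKAP : KAPStmt) (hKLB : KLBStmt) (hNBR : NBRStmt) : BTWStmt := by
  classical
  intro p C hC
  obtain ⟨a₁, hEDG⟩ := hEDG p
  obtain ⟨a₂, hEDS⟩ := hEDS p
  obtain ⟨a₃, hCDG⟩ := hCDG p C
  obtain ⟨a₄, hKLB⟩ := hKLB p C
  have hd0 : (0 : ℝ) < 3 / (16 * ((p : ℝ) + 3) * C) := by positivity
  refine ⟨min 1 (3 / (16 * ((p : ℝ) + 3) * C)), lt_min one_pos hd0,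
    max (max a₁ a₂) (max (max a₃ a₄) (p + 2)), ?_⟩
  intro a ha V _ _ G hG v e P U hS he0 he1 hUne hstr hP
  obtain ⟨δ, hδ⟩ : ∃ δ : ℝ, δ = min 1 (3 / (16 * ((p : ℝ) + 3) * C)) := ⟨_, rfl⟩
  rw [← hδ] at hstr
  have hδ0 : 0 < δ := by rw [hδ]; exact lt_min one_pos hd0
  have hδ1 : δ ≤ 1 := by rw [hδ]; exact min_le_left _ _
  have hδ2 : 16 * ((p : ℝ) + 3) * C * δ ≤ 3 := by
    have : δ ≤ 3 / (16 * ((p : ℝ) + 3) * C) := by rw [hδ]; exact min_le_right _ _
    rw [le_div_iff₀ (by positivity)] at this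
    linarith
  simp only [ge_iff_le, max_le_iff] at ha
  obtain ⟨⟨ha1, ha2⟩, ⟨ha3, ha4⟩, hap⟩ := ha
  have hap' : (p : ℝ) + 2 ≤ a := by exact_mod_cast hap
  have ha0 : (0 : ℝ) < a := by
    have : (0 : ℝ) ≤ p := Nat.cast_nonneg _
    linarith
  have hWc := hG.deg v
  have hD : (p + 3) * a + (p + 2) = (p + 2) * (a + 1) + a := by ring
  obtain ⟨B, hB⟩ : ∃ B : ℝ, B = (bal (p + 2) ((p + 2) * (a + 1)) : ℝ) := ⟨_, rfl⟩
  have hM : (bal (p + 3) ((p + 3) * a + (p + 2)) : ℝ) = a * B := by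
    rw [hB, hNBR.1, hNBR.2.1]
    push_cast
    ring
  rw [hM]
  obtain ⟨κ, hκ⟩ : ∃ κ : ℝ, κ = (((clq G (nb G univ v) (p + 3)).filter
        (fun L => ¬ Disjoint L U)).card : ℝ) := ⟨_, rfl⟩
  have hκ0 : 0 ≤ κ := by rw [hκ]; exact Nat.cast_nonneg _
  -- one part
  have hpart : ∀ i, (P i).card = a →
      LS G p a v ≤ a * (a * B) - 3 / 8 * (a : ℝ) ^ (p + 2) * ((BTWAux.TT G (P i) U).card : ℝ) +
        ((a : ℝ) + p + 2) * κ := by
    intro i hi
    rw [hκ]
    have hco : ∀ u ∈ P i, u ∈ nb G univ v ∧ (co G v u).card ≤ (p + 2) * (a + 1) ∧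
        (p + 4) * (co G v u).card ≤ (p + 2) * (p + 5) * a := by
      intro u hu
      have h1 := hCDG a ha3 G e _ P U hS he0 he1 hWc i
      have h2 := h1.1 u hu
      have h3 : (co G v u).card + (P i).card ≤ (p + 3) * a + (p + 2) := by
        change (nb G (nb G univ v) u).card + _ ≤ _
        omega
      refine ⟨(hS.cov u).2 (Or.inr ⟨i, hu⟩), ?_, h1.2.1 _ h3⟩
      omega
    refine BTWAux.part hS hCOV hMEE (a * B) hi ?_ ?_
    · intro u hu _
      obtain ⟨h1, h2, h3⟩ := hco u hu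
      have h4 := hEDG a ha1 G hG v u h1 h3
      rw [max_eq_right h2, ← hB] at h4
      exact h4
    · rintro u hu ⟨z, hzU, hz⟩
      obtain ⟨h1, h2, h3⟩ := hco u hu
      have h4 : (co G v u \ U).card + 1 ≤ (co G v u).card := by
        refine Nat.succ_le_of_lt (card_lt_card ?_)
        refine ⟨sdiff_subset, fun hsub => ?_⟩
        have hzW : z ∈ nb G univ v := (hS.cov z).2 (Or.inl hzU)
        have hz2 : z ∈ co G v u := (mem_nb G).2 ⟨hzW, hz⟩
        exact (mem_sdiff.1 (hsub hz2)).2 hzU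
      have h5 := hEDS a ha2 G hG v u h1 (co G v u \ U) sdiff_subset h4 h2
      have h6 := hKLB a ha4 G e _ P U hS he0 he1 i u hu
      rw [← hB] at h5
      have h7 : (a : ℝ) ^ (p + 2) / 2 ≤ kc G (co G v u \ U) (p + 2) := h6
      linarith
  -- all small parts
  obtain ⟨Z, hZ⟩ : ∃ Z : Finset (Fin (p + 3)), Z = univ.filter (fun i => (P i).card = a) :=
    ⟨_, rfl⟩
  have hZc : U.card + 1 ≤ Z.card := by
    rw [hZ]
    exact BTWAux.cardZ hS hWc hP
  have hZ3 : Z.card ≤ p + 3 := by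
    simpa using card_le_univ Z
  obtain ⟨t, ht⟩ : ∃ t : ℝ, t = ∑ i ∈ Z, ((BTWAux.TT G (P i) U).card : ℝ) := ⟨_, rfl⟩
  have ht0 : 0 ≤ t := by
    rw [ht]
    exact sum_nonneg (fun _ _ => Nat.cast_nonneg _)
  have hk1 : κ ≤ t * (U.card * (δ * a) ^ (p + 1)) := by
    rw [hκ, ht]
    exact BTWAux.kap hS hMEE hKAP hstr Z (by omega)
  have hk2 : κ ≤ t * (C * (δ * (a : ℝ) ^ (p + 1))) := by
    refine hk1.trans (mul_le_mul_of_nonneg_left ?_ ht0)
    refine mul_le_mul hS.cU ?_ (by positivity) hC.le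
    rw [mul_pow]
    refine mul_le_mul_of_nonneg_right ?_ (by positivity)
    calc δ ^ (p + 1) = δ ^ p * δ := pow_succ _ _
      _ ≤ 1 * δ := mul_le_mul_of_nonneg_right (pow_le_one₀ hδ0.le hδ1) hδ0.le
      _ = δ := one_mul _
  have hsum : (Z.card : ℝ) * LS G p a v ≤ Z.card * (a * (a * B)) -
      3 / 8 * (a : ℝ) ^ (p + 2) * t + Z.card * (((a : ℝ) + p + 2) * κ) := by
    have h1 : ∑ i ∈ Z, LS G p a v ≤ ∑ i ∈ Z, (a * (a * B) -
        3 / 8 * (a : ℝ) ^ (p + 2) * ((BTWAux.TT G (P i) U).card : ℝ) +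
        ((a : ℝ) + p + 2) * κ) := by
      refine sum_le_sum ?_
      intro i hi
      refine hpart i ?_
      rw [hZ, mem_filter] at hi
      exact hi.2
    rw [sum_const, nsmul_eq_mul, sum_add_distrib, sum_sub_distrib, sum_const, sum_const,
      nsmul_eq_mul, nsmul_eq_mul, ← mul_sum, ← ht] at h1
    exact h1
  have hlast : (Z.card : ℝ) * (((a : ℝ) + p + 2) * κ) ≤ 3 / 8 * (a : ℝ) ^ (p + 2) * t := by
    have h1 : (Z.card : ℝ) ≤ (p : ℝ) + 3 := by exact_mod_cast hZ3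
    have h2 : ((a : ℝ) + p + 2) * κ ≤ (2 * a) * (t * (C * (δ * (a : ℝ) ^ (p + 1)))) :=
      mul_le_mul (by linarith) hk2 hκ0 (by positivity)
    have h3 : (Z.card : ℝ) * (((a : ℝ) + p + 2) * κ) ≤
        ((p : ℝ) + 3) * ((2 * a) * (t * (C * (δ * (a : ℝ) ^ (p + 1))))) :=
      mul_le_mul h1 h2 (by positivity) (by positivity)
    refine h3.trans ?_
    have h4 : ((p : ℝ) + 3) * ((2 * a) * (t * (C * (δ * (a : ℝ) ^ (p + 1))))) =
        (16 * ((p : ℝ) + 3) * C * δ) * ((a : ℝ) ^ (p + 2) * t / 8) := by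
      rw [pow_succ (a : ℝ) (p + 1)]
      ring
    rw [h4]
    have h5 : (0 : ℝ) ≤ (a : ℝ) ^ (p + 2) * t / 8 := by positivity
    have h6 := mul_le_mul_of_nonneg_right hδ2 h5
    linarith
  have hZ0 : (0 : ℝ) < Z.card := by
    have : 0 < Z.card := by omega
    exact_mod_cast this
  have hfin : (Z.card : ℝ) * LS G p a v ≤ Z.card * (a * (a * B)) := by linarith
  exact le_of_mul_le_mul_left hfin hZ0

end Pool.KR
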