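import Pool.Agent.H7.KR.Stmts

/-!
# Board `kr`, row KLB (MP_fd41b2_co): many cliques in an ordinary neighbourhood.
-/

set_option autoImplicit false

open Finset

namespace Pool.KR

open Pool.Agent.H23.KT Pool.Agent.H46.KW Pool.KQ

namespace KLBAux

variable {V : Type} [DecidableEq V]

omit [DecidableEq V] in
lemma mem_trv {G : SimpleGraph V} {b : ℕ} {P : Fin b → Finset V} {f : Fin b → V} :
    f ∈ trv G P ↔ (∀ i, f i ∈ P i) ∧ ∀ i j, i ≠ j → G.Adj (f i) (f j) := by
  classical
  unfold trv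
  rw [mem_filter, Fintype.mem_piFinset]

/-- The sets for the transversals: neighbours of `u` outside the part `i`. -/
noncomputable def SS (G : SimpleGraph V) {b : ℕ} (P : Fin b → Finset V) (i : Fin b) (u : V)
    (k : Fin b) : Finset V := if k = i then P i else nb G (P k) u

omit [DecidableEq V] in
lemma SS_self (G : SimpleGraph V) {b : ℕ} (P : Fin b → Finset V) (i : Fin b) (u : V) :
    SS G P i u i = P i := by
  unfold SS
  rw [if_pos rfl]

omit [DecidableEq V] in
lemma SS_ne (G : SimpleGraph V) {b : ℕ} (P : Fin b → Finset V) {i k : Fin b} (h : k ≠ i) (u : V) :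
    SS G P i u k = nb G (P k) u := by
  unfold SS
  rw [if_neg h]

omit [DecidableEq V] in
lemma SS_sub (G : SimpleGraph V) {b : ℕ} (P : Fin b → Finset V) (i : Fin b) (u : V) (k : Fin b) :
    SS G P i u k ⊆ P k := by
  by_cases h : k = i
  · subst h
    rw [SS_self]
  · rw [SS_ne G P h]
    exact nb_subset G _ _

/-- The number of transversals. -/
lemma trv_le {G : SimpleGraph V} {p a : ℕ} {e C : ℝ} {W : Finset V}
    {P : Fin (p + 3) → Finset V} {U : Finset V} (hS : Str G p a e C W P U) (i : Fin (p + 3))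
    (u : V) : (trv G (SS G P i u)).card ≤ (P i).card * kc G (nb G W u \ U) (p + 2) := by
  rw [kc_eq, ← card_product]
  refine card_le_card_of_injOn (fun f => (f i, (univ.erase i).image f)) ?_ ?_
  · intro f hf
    obtain ⟨h1, h2⟩ := mem_trv.1 (mem_coe.1 hf)
    have h3 : ∀ k, k ≠ i → f k ∈ nb G W u \ U := by
      intro k hk
      have h4 := h1 k
      rw [SS_ne G P hk, mem_nb] at h4
      rw [mem_sdiff, mem_nb]
      refine ⟨⟨(hS.cov _).2 (Or.inr ⟨k, h4.1⟩), h4.2⟩, fun hU => ?_⟩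
      exact disjoint_left.1 (hS.disU k) h4.1 hU
    rw [mem_coe, mem_product, mem_clq]
    refine ⟨?_, ?_, ?_, ?_⟩
    · have := h1 i
      rw [SS_self] at this
      exact this
    · intro x hx
      obtain ⟨k, hk, rfl⟩ := mem_image.1 hx
      exact h3 k (ne_of_mem_erase hk)
    · change ((univ.erase i).image f).card = p + 2
      rw [card_image_of_injective, card_erase_of_mem (mem_univ i), card_univ, Fintype.card_fin]
      · rfl
      · intro j k hjk
        by_contra hne
        exact (h2 j k hne).ne hjk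
    · intro x hx y hy hxy
      obtain ⟨j, hj, rfl⟩ := mem_image.1 (mem_coe.1 hx)
      obtain ⟨k, hk, rfl⟩ := mem_image.1 (mem_coe.1 hy)
      exact h2 j k (fun h => hxy (by rw [h]))
  · intro f hf g hg hfg
    obtain ⟨h1, -⟩ := mem_trv.1 (mem_coe.1 hf)
    obtain ⟨h2, -⟩ := mem_trv.1 (mem_coe.1 hg)
    obtain ⟨h3, h4⟩ := Prod.mk.inj hfg
    funext k
    by_cases hk : k = i
    · rw [hk]
      exact h3
    · have h5 : f k ∈ (univ.erase i).image f :=
        mem_image.2 ⟨k, mem_erase.2 ⟨hk, mem_univ k⟩, rfl⟩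
      rw [h4] at h5
      obtain ⟨j, hj, hjk⟩ := mem_image.1 h5
      have h6 : j = k := by
        by_contra hne
        refine disjoint_left.1 (hS.par.dis j k hne) (SS_sub G P i u j (h2 j)) ?_
        rw [hjk]
        exact SS_sub G P i u k (h1 k)
      rw [← hjk, h6]

omit [DecidableEq V] in
/-- Neighbours and non-neighbours. -/
lemma card_non (G : SimpleGraph V) (X : Finset V) (u : V) :
    (nb G X u).card + (non G X u).card = X.card := by
  classical
  unfold nb non
  rw [← card_filter_add_card_filter_not (s := X) (fun y => G.Adj u y)]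

end KLBAux

/-- Many cliques in the neighbourhood of an ordinary vertex. -/
theorem klb (hBRK : BRKStmt) : KLBStmt := by
  classical
  intro p C
  refine ⟨max 1 ⌈8 * C * 2 ^ (p + 1)⌉₊, ?_⟩
  intro a ha V _ G e W P U hS he0 he1 i u hu
  have ha1 : 1 ≤ a := le_trans (le_max_left _ _) ha
  have ha2 : 8 * C * 2 ^ (p + 1) ≤ (a : ℝ) :=
    (Nat.le_ceil _).trans (by exact_mod_cast (le_max_right _ _).trans ha)
  have ha0 : (1 : ℝ) ≤ a := by exact_mod_cast ha1
  have hp : (0 : ℝ) ≤ p := Nat.cast_nonneg _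
  have hE0 : 0 < e1 p := by unfold e1; positivity
  have hE1 : e1 p * (16 * ((p : ℝ) + 3) ^ 3) = 1 := by
    unfold e1
    rw [one_div, inv_mul_cancel₀ (by positivity)]
  have hE2 : 4 * ((p : ℝ) + 2) * e1 p ≤ 1 / 2 := by
    have h1 : 8 * ((p : ℝ) + 2) ≤ 16 * ((p : ℝ) + 3) ^ 3 := by
      nlinarith [mul_nonneg hp hp, mul_nonneg hp (mul_nonneg hp hp)]
    have h2 := mul_le_mul_of_nonneg_left h1 hE0.le
    linarith
  have hE3 : e1 p ≤ 1 / 16 := by
    have h1 : 2 * e1 p ≤ ((p : ℝ) + 2) * e1 p :=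
      mul_le_mul_of_nonneg_right (by linarith) hE0.le
    linarith
  obtain ⟨h1, -, h3⟩ := hBRK G p (KLBAux.SS G P i u)
  have hhi : ∀ k, (P k).card ≤ 2 * a := by
    intro k
    have h4 := hS.hi k
    have h5 : (1 + e) * (a : ℝ) ≤ 2 * a := mul_le_mul_of_nonneg_right (by linarith) (by linarith)
    exact_mod_cast h4.trans h5
  have hprod := h1 (2 * a) (fun k => (card_le_card (KLBAux.SS_sub G P i u k)).trans (hhi k))
  have htot : (tot G (KLBAux.SS G P i u) : ℝ) ≤ C * a := by
    have h4 := (hBRK G p P).2.2 (KLBAux.SS G P i u) (KLBAux.SS_sub G P i u)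
    exact le_trans (by exact_mod_cast h4) hS.tot
  have htrv := KLBAux.trv_le hS i u
  obtain ⟨K, hK⟩ : ∃ K : ℝ, K = kc G (nb G W u \ U) (p + 2) := ⟨_, rfl⟩
  rw [← hK]
  -- the product over the other parts
  have hsplit : ∏ k, ((KLBAux.SS G P i u k).card : ℝ) =
      (P i).card * ∏ k ∈ univ.erase i, ((KLBAux.SS G P i u k).card : ℝ) := by
    rw [← mul_prod_erase univ _ (mem_univ i), KLBAux.SS_self]
  have hlow : ((1 - 2 * e1 p) * a) ^ (p + 2) ≤
      ∏ k ∈ univ.erase i, ((KLBAux.SS G P i u k).card : ℝ) := by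
    have h4 : ((1 - 2 * e1 p) * (a : ℝ)) ^ (p + 2) =
        ∏ _k ∈ univ.erase i, ((1 - 2 * e1 p) * (a : ℝ)) := by
      rw [prod_const, card_erase_of_mem (mem_univ i), card_univ, Fintype.card_fin]
      rfl
    rw [h4]
    refine prod_le_prod ?_ ?_
    · intro k _
      have : 0 ≤ 1 - 2 * e1 p := by linarith
      positivity
    · intro k hk
      have hki : k ≠ i := ne_of_mem_erase hk
      rw [KLBAux.SS_ne G P hki]
      have h5 : ((nb G (P k) u).card : ℝ) + (non G (P k) u).card = (P k).card := by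
        exact_mod_cast KLBAux.card_non G (P k) u
      have h6 := hS.mis i u hu k hki
      have h7 := hS.lo k
      have h8 : e * (a : ℝ) ≤ e1 p * a := mul_le_mul_of_nonneg_right he1 (by linarith)
      nlinarith
  have hbern : (3 / 4 : ℝ) * (a : ℝ) ^ (p + 2) ≤ ((1 - 2 * e1 p) * a) ^ (p + 2) := by
    rw [mul_pow]
    refine mul_le_mul_of_nonneg_right ?_ (by positivity)
    have h4 := one_add_mul_le_pow (a := -(2 * e1 p)) (by linarith) (p + 2)
    have h5 : (1 + -(2 * e1 p)) = 1 - 2 * e1 p := by ring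
    rw [h5] at h4
    refine le_trans ?_ h4
    push_cast
    linarith
  obtain ⟨Q, hQ⟩ : ∃ Q : ℝ, Q = ∏ k ∈ univ.erase i, ((KLBAux.SS G P i u k).card : ℝ) := ⟨_, rfl⟩
  rw [← hQ] at hlow hsplit
  have hmain : ((P i).card : ℝ) * Q ≤ (P i).card * K + C * a * (2 * a) ^ (p + 1) := by
    rw [← hsplit]
    have h4 : (∏ k, ((KLBAux.SS G P i u k).card : ℝ)) ≤ (trv G (KLBAux.SS G P i u)).card +
        tot G (KLBAux.SS G P i u) * (2 * a) ^ (p + 1) := by exact_mod_cast hprod
    have h5 : ((trv G (KLBAux.SS G P i u)).card : ℝ) ≤ (P i).card * K := by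
      rw [hK]
      exact_mod_cast htrv
    have h6 : (tot G (KLBAux.SS G P i u) : ℝ) * (2 * a) ^ (p + 1) ≤
        C * a * (2 * a) ^ (p + 1) := mul_le_mul_of_nonneg_right htot (by positivity)
    linarith
  have hPi : (a : ℝ) / 2 ≤ (P i).card := by
    have h4 := hS.lo i
    have h5 : e * (a : ℝ) ≤ 1 / 2 * a := mul_le_mul_of_nonneg_right (by linarith) (by linarith)
    linarith
  have hC : C * a * (2 * (a : ℝ)) ^ (p + 1) ≤ (a / 2) * ((a : ℝ) ^ (p + 2) / 4) := by
    have h4 : C * a * (2 * (a : ℝ)) ^ (p + 1) =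
        (8 * C * 2 ^ (p + 1)) * ((a : ℝ) ^ (p + 2) / 8) := by
      rw [mul_pow, pow_succ (a : ℝ) (p + 1)]
      ring
    have h5 : (a / 2 : ℝ) * ((a : ℝ) ^ (p + 2) / 4) = a * ((a : ℝ) ^ (p + 2) / 8) := by ring
    rw [h4, h5]
    exact mul_le_mul_of_nonneg_right ha2 (by positivity)
  by_contra hcon
  push Not at hcon
  have h7 : (a : ℝ) ^ (p + 2) / 4 < Q - K := by linarith
  have h8 : (a / 2 : ℝ) * ((a : ℝ) ^ (p + 2) / 4) < (P i).card * (Q - K) := by
    have h9 : (0 : ℝ) < (P i).card := by linarith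
    have h10 : (0 : ℝ) ≤ (a : ℝ) ^ (p + 2) / 4 := by positivity
    exact lt_of_le_of_lt (mul_le_mul_of_nonneg_right hPi h10) (mul_lt_mul_of_pos_left h7 h9)
  linarith

end Pool.KR
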